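import Pool.Agent.W670.ML.Defs

/-!
# S_MI: basic facts on the minimal index (helper29)
-/

set_option autoImplicit false

namespace Pool.Agent.W29.ML

open Pool.Agent.W670.ML

theorem mi : S_MI := by
  intro n G hn hG
  refine ⟨?_, ?_⟩
  · have hne : {k : ℕ | ∃ g ∈ G, g ≠ 1 ∧ k = ind g}.Nonempty := by
      obtain ⟨g, hg, h⟩ := hG ⟨0, by omega⟩ ⟨1, by omega⟩
      refine ⟨ind g, g, hg, ?_, rfl⟩
      rintro rfl
      rw [Equiv.Perm.one_apply, Fin.mk.injEq] at h
      omega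
    exact ⟨sInf _, Nat.sInf_mem hne, fun k hk => Nat.sInf_le hk⟩
  · rintro m ⟨⟨g, hg, hg1, rfl⟩, hlow⟩
    have h1 : g.cycleType ≠ 0 := fun h => hg1 (Equiv.Perm.cycleType_eq_zero.1 h)
    have h2 : 1 ≤ Multiset.card g.cycleType := Multiset.card_pos.2 h1
    have h3 : Multiset.card g.cycleType • 2 ≤ g.cycleType.sum :=
      Multiset.card_nsmul_le_sum fun x hx => Equiv.Perm.two_le_of_mem_cycleType hx
    have h4 : g.cycleType.sum ≤ n := by
      rw [Equiv.Perm.sum_cycleType]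
      exact (Finset.card_le_univ _).trans_eq (Fintype.card_fin n)
    rw [smul_eq_mul] at h3
    refine ⟨?_, ?_, fun h hh hh1 => hlow ⟨h, hh, hh1, rfl⟩⟩
    · unfold ind; omega
    · unfold ind; omega

end Pool.Agent.W29.ML
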